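import Pool.Agent.Helper18.SU.Goals

/-! Packet MASS: the mass of a reservation measure is at most twice the threshold. -/

set_option autoImplicit false

namespace Pool.Agent.Helper58.SU

open Pool.Agent.Helper18.SU Finset

theorem arc_irrefl {V : Type} {A : V → V → Prop} (hA : Tour A) (d : Bool) (x : V) :
    ¬ Arc A d x x := by
  have h := hA.1 x x
  cases d <;> exact fun h' => h h' h'

theorem arc_asymm {V : Type} {A : V → V → Prop} (hA : Tour A) (d : Bool) (x y : V) :
    Arc A d x y → ¬ Arc A d y x := by
  cases d
  · exact fun h => hA.1 y x h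
  · exact fun h => hA.1 x y h

theorem arc_total {V : Type} {A : V → V → Prop} (hA : Tour A) (d : Bool) (x y : V) (h : x ≠ y) :
    Arc A d x y ∨ Arc A d y x := by
  cases d
  · exact hA.2 y x h.symm
  · exact hA.2 x y h

theorem MASS : MASS_stmt := by
  classical
  intro V _ _ A hA d p hp P hP hle
  have key : ∀ x y : V, (if Arc A d x y then P x * P y else 0) +
      (if Arc A d y x then P y * P x else 0) = P x * P y - (if x = y then P x * P y else 0) := by
    intro x y
    by_cases hxy : x = y
    · subst hxy
      simp [arc_irrefl hA d x]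
    · rcases arc_total hA d x y hxy with h | h
      · have h' := arc_asymm hA d x y h
        simp [h, h', hxy]
      · have h' := arc_asymm hA d y x h
        simp [h, h', hxy, mul_comm]
  have h1 : ∑ x, ∑ y, ((if Arc A d x y then P x * P y else 0) +
      (if Arc A d y x then P y * P x else 0)) = (∑ x, P x) ^ 2 - ∑ x, P x ^ 2 := by
    have e1 : ∑ x, ∑ y, ((if Arc A d x y then P x * P y else 0) +
        (if Arc A d y x then P y * P x else 0)) =
        ∑ x, ∑ y, (P x * P y - (if x = y then P x * P y else 0)) :=
      Finset.sum_congr rfl fun x _ => Finset.sum_congr rfl fun y _ => key x y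
    rw [e1]
    have e2 : ∀ x, ∑ y, (P x * P y - (if x = y then P x * P y else 0)) =
        P x * (∑ y, P y) - P x ^ 2 := by
      intro x
      rw [Finset.sum_sub_distrib, ← Finset.mul_sum]
      congr 1
      rw [Finset.sum_ite_eq Finset.univ x (fun y => P x * P y)]
      simp [pow_two]
    rw [Finset.sum_congr rfl fun x _ => e2 x, Finset.sum_sub_distrib, ← Finset.sum_mul, pow_two]
  have h2 : ∑ x, ∑ y, ((if Arc A d x y then P x * P y else 0) +
      (if Arc A d y x then P y * P x else 0)) =
      2 * ∑ x, ∑ y, (if Arc A d x y then P x * P y else 0) := by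
    have e3 : ∑ x, ∑ y, (if Arc A d y x then P y * P x else 0) =
        ∑ x, ∑ y, (if Arc A d x y then P x * P y else 0) :=
      Finset.sum_comm
    have e4 : ∑ x, ∑ y, ((if Arc A d x y then P x * P y else 0) +
        (if Arc A d y x then P y * P x else 0)) =
        ∑ x, ∑ y, (if Arc A d x y then P x * P y else 0) +
        ∑ x, ∑ y, (if Arc A d y x then P y * P x else 0) := by
      rw [← Finset.sum_add_distrib]
      exact Finset.sum_congr rfl fun x _ => Finset.sum_add_distrib
    rw [e4, e3, two_mul]
  have h3 : ∑ x, P x * wt A d P x = ∑ x, ∑ y, (if Arc A d x y then P x * P y else 0) := by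
    refine Finset.sum_congr rfl fun x _ => ?_
    unfold wt
    rw [Finset.mul_sum]
    refine Finset.sum_congr rfl fun y _ => ?_
    split_ifs <;> simp
  have h4 : ∑ x, P x * (wt A d P x + P x / 2) = (∑ x, P x) ^ 2 / 2 := by
    have e5 : ∑ x, P x * (wt A d P x + P x / 2) = ∑ x, P x * wt A d P x + (∑ x, P x ^ 2) / 2 := by
      rw [Finset.sum_div, ← Finset.sum_add_distrib]
      refine Finset.sum_congr rfl fun x _ => ?_
      ring
    rw [e5, h3]
    linarith
  have h5 : ∑ x, P x * (wt A d P x + P x / 2) ≤ ∑ x, P x * p := by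
    refine Finset.sum_le_sum fun x _ => ?_
    rcases (hP x).eq_or_lt with h | h
    · rw [← h]
      simp
    · exact mul_le_mul_of_nonneg_left (hle x h) (hP x)
  rw [h4, ← Finset.sum_mul] at h5
  have hS : 0 ≤ ∑ x, P x := Finset.sum_nonneg fun x _ => hP x
  rcases hS.eq_or_lt with h | h
  · rw [← h]
    linarith
  · nlinarith

end Pool.Agent.Helper58.SU
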