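import Pool.Agent.Helper18.SU.Goals2

/-! # Packet KEX (MP_f2ad72_co): the core -/

set_option autoImplicit false

namespace Pool.Agent.Helper58.SU

open Finset Pool.Agent.Helper18.SU

lemma par_root {W : Type} {r : W} {par : W → W} {dep : W → ℕ} (h : Rooted r par dep) (k : ℕ) :
    par^[k] r = r := by
  induction k with
  | zero => rfl
  | succ k ih => rw [Function.iterate_succ_apply, h.2.1, ih]

lemma par_dep {W : Type} {r : W} {par : W → W} {dep : W → ℕ} (h : Rooted r par dep) :
    ∀ (n : ℕ) (w : W), dep w = n → par^[n] w = r := by
  intro n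
  induction n with
  | zero =>
    intro w hw
    by_contra hne
    have := h.2.2 w hne
    omega
  | succ n ih =>
    intro w hw
    have hne : w ≠ r := by
      rintro rfl
      rw [h.1] at hw
      omega
    have := h.2.2 w hne
    rw [Function.iterate_succ_apply]
    exact ih (par w) (by omega)

open Classical in
lemma tops_not_mem {W : Type} [Fintype W] (par : W → W) (K : Finset W) (c : W)
    (h : c ∈ tops par K) : c ∉ K := by
  unfold tops at h
  exact (Finset.mem_filter.1 h).2.1

theorem KEX (_h1 : DSC_stmt) : KEX_stmt := by
  classical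
  intro W _ _ r par dep hR β D' hβ hD
  have mem : ∀ w c, w ∈ dsc par c ↔ ∃ k : ℕ, par^[k] w = c := by
    intro w c
    simp [dsc]
  refine ⟨univ.filter (fun w => β < (dsc par w).card), ?_, ?_, ?_, ?_⟩
  · rw [mem_filter]
    refine ⟨mem_univ _, ?_⟩
    have e : dsc par r = univ := by
      apply eq_univ_of_forall
      intro w
      rw [mem]
      exact ⟨dep w, par_dep hR _ w rfl⟩
    rw [e, card_univ]
    exact hβ
  · intro v hv
    rw [mem_filter] at hv ⊢
    refine ⟨mem_univ _, lt_of_lt_of_le hv.2 (card_le_card ?_)⟩
    intro w hw
    rw [mem] at hw ⊢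
    obtain ⟨k, hk⟩ := hw
    exact ⟨k + 1, by rw [Function.iterate_succ_apply', hk]⟩
  · intro c hc
    have h2 := tops_not_mem par _ c hc
    by_contra h3
    exact h2 (mem_filter.2 ⟨mem_univ _, by omega⟩)
  · set K := univ.filter (fun w => β < (dsc par w).card) with hK
    calc K.card * β = ∑ w ∈ K, β := by rw [sum_const, smul_eq_mul]
      _ ≤ ∑ w ∈ K, (dsc par w).card := sum_le_sum (fun w hw => (mem_filter.1 hw).2.le)
      _ = ∑ w ∈ K, ∑ x, if x ∈ dsc par w then 1 else 0 := by
          refine sum_congr rfl (fun w _ => ?_)
          rw [← card_filter]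
          congr 1
          ext x
          simp
      _ = ∑ x, ∑ w ∈ K, (if x ∈ dsc par w then 1 else 0) := sum_comm
      _ ≤ ∑ x : W, D' := by
          refine sum_le_sum (fun x _ => ?_)
          rw [← card_filter]
          refine le_trans ?_ (hD x)
          have hsub : K.filter (fun w => x ∈ dsc par w) ⊆
              (range (dep x + 1)).image (fun k => par^[k] x) := by
            intro w hw
            rw [mem_filter, mem] at hw
            obtain ⟨-, k, hk⟩ := hw
            rw [mem_image]
            by_cases hkd : k ≤ dep x
            · exact ⟨k, by rw [mem_range]; omega, hk⟩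
            · refine ⟨dep x, by rw [mem_range]; omega, ?_⟩
              rw [← hk, par_dep hR _ x rfl]
              obtain ⟨j, rfl⟩ : ∃ j, k = j + dep x := ⟨k - dep x, by omega⟩
              rw [Function.iterate_add_apply, par_dep hR _ x rfl, par_root hR]
          refine (card_le_card hsub).trans ?_
          refine card_image_le.trans ?_
          rw [card_range]
      _ = Fintype.card W * D' := by rw [sum_const, card_univ, smul_eq_mul]

end Pool.Agent.Helper58.SU
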