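import Pool.Agent.Helper18.SU.Goals2

/-! # Packet DRC (MP_f2ad72_co): dependent random choice -/

set_option autoImplicit false

namespace Pool.Agent.Helper58.SU

open Finset Pool.Agent.Helper18.SU

lemma card_fun {V : Type} [Fintype V] [DecidableEq V] (S : Finset V) (t : ℕ) :
    (univ.filter (fun v : Fin t → V => ∀ i, v i ∈ S)).card = S.card ^ t := by
  have e : univ.filter (fun v : Fin t → V => ∀ i, v i ∈ S) =
      Fintype.piFinset (fun _ : Fin t => S) := by
    ext v
    simp [Fintype.mem_piFinset]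
  rw [e, Fintype.card_piFinset_const]

theorem DRC : DRC_stmt := by
  classical
  intro V _ _ A d M μ a τ t hM hμ ha h
  by_contra hcon
  push Not at hcon
  set nbx : V → Finset V := fun x => nb A d univ x with hnbx
  set X : (Fin t → V) → Finset V := fun v => M.filter (fun x => ∀ i, v i ∈ nbx x) with hX
  set bad : V × V → Prop := fun p => p.1 ≠ p.2 ∧ (nbx p.1 ∩ nbx p.2).card < τ with hbad
  set Z : (Fin t → V) → ℕ := fun v => ((X v ×ˢ X v).filter bad).card with hZ
  have hXM : ∀ v, X v ⊆ M := fun v => filter_subset _ _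
  have h1 : ∀ v, (X v).card ≤ (μ - 1) + M.card * Z v := by
    intro v
    by_cases hv : μ ≤ (X v).card
    · obtain ⟨x, hx, y, hy, hxy, hlt⟩ := hcon (X v) (hXM v) hv
      have hz : 1 ≤ Z v := by
        apply Finset.card_pos.2
        exact ⟨(x, y), mem_filter.2 ⟨mem_product.2 ⟨hx, hy⟩, hxy, hlt⟩⟩
      calc (X v).card ≤ M.card := card_le_card (hXM v)
        _ = M.card * 1 := (mul_one _).symm
        _ ≤ M.card * Z v := Nat.mul_le_mul_left _ hz
        _ ≤ _ := Nat.le_add_left _ _
    · omega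
  have h2 : ∑ v, (X v).card = ∑ x ∈ M, (nbx x).card ^ t := by
    have e1 : ∀ v, (X v).card = ∑ x ∈ M, if ∀ i, v i ∈ nbx x then 1 else 0 := by
      intro v
      rw [hX, card_filter]
    rw [sum_congr rfl (fun v _ => e1 v), sum_comm]
    refine sum_congr rfl (fun x _ => ?_)
    rw [← card_filter, card_fun]
  have h3 : ∑ v, Z v ≤ M.card ^ 2 * τ ^ t := by
    have e1 : ∀ v, Z v ≤ ∑ p ∈ M ×ˢ M, if (bad p ∧ ∀ i, v i ∈ nbx p.1 ∩ nbx p.2) then 1 else 0 := by
      intro v
      rw [← card_filter]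
      apply card_le_card
      intro p hp
      rw [mem_filter, mem_product] at hp
      obtain ⟨⟨hp1, hp2⟩, hb⟩ := hp
      rw [hX, mem_filter] at hp1 hp2
      rw [mem_filter, mem_product]
      exact ⟨⟨hp1.1, hp2.1⟩, hb, fun i => mem_inter.2 ⟨hp1.2 i, hp2.2 i⟩⟩
    calc ∑ v, Z v ≤ ∑ v, ∑ p ∈ M ×ˢ M,
          (if (bad p ∧ ∀ i, v i ∈ nbx p.1 ∩ nbx p.2) then 1 else 0) :=
          sum_le_sum (fun v _ => e1 v)
      _ = ∑ p ∈ M ×ˢ M, ∑ v : Fin t → V,
          (if (bad p ∧ ∀ i, v i ∈ nbx p.1 ∩ nbx p.2) then 1 else 0) := sum_comm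
      _ ≤ ∑ p ∈ M ×ˢ M, τ ^ t := by
          refine sum_le_sum (fun p _ => ?_)
          by_cases hb : bad p
          · rw [← card_filter]
            have : univ.filter (fun v : Fin t → V => bad p ∧ ∀ i, v i ∈ nbx p.1 ∩ nbx p.2) ⊆
                univ.filter (fun v : Fin t → V => ∀ i, v i ∈ nbx p.1 ∩ nbx p.2) := by
              intro v hv
              rw [mem_filter] at hv ⊢
              exact ⟨hv.1, hv.2.2⟩
            refine (card_le_card this).trans ?_
            rw [card_fun]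
            exact Nat.pow_le_pow_left hb.2.le t
          · have : ∀ v : Fin t → V, (if (bad p ∧ ∀ i, v i ∈ nbx p.1 ∩ nbx p.2) then 1 else 0) = 0 :=
              fun v => if_neg (fun hh => hb hh.1)
            rw [sum_congr rfl (fun v _ => this v)]
            simp
      _ = M.card ^ 2 * τ ^ t := by
          rw [sum_const, card_product, smul_eq_mul]
          ring
  have h4 : M.card * a ^ t ≤ ∑ v, (X v).card := by
    rw [h2, ← smul_eq_mul, ← sum_const]
    exact sum_le_sum (fun x hx => Nat.pow_le_pow_left (ha x hx) t)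
  have h5 : ∑ v, (X v).card ≤ (μ - 1) * Fintype.card V ^ t + M.card ^ 3 * τ ^ t := by
    calc ∑ v, (X v).card ≤ ∑ v, ((μ - 1) + M.card * Z v) := sum_le_sum (fun v _ => h1 v)
      _ = (μ - 1) * Fintype.card V ^ t + M.card * ∑ v, Z v := by
          rw [sum_add_distrib, sum_const, ← mul_sum, card_univ, Fintype.card_fun, Fintype.card_fin,
            smul_eq_mul, mul_comm]
      _ ≤ (μ - 1) * Fintype.card V ^ t + M.card * (M.card ^ 2 * τ ^ t) :=
          Nat.add_le_add_left (Nat.mul_le_mul_left _ h3) _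
      _ = _ := by ring
  have hV : 0 < Fintype.card V := by
    obtain ⟨x, -⟩ := hM
    exact Fintype.card_pos_iff.2 ⟨x⟩
  have h6 : 0 < Fintype.card V ^ t := by positivity
  obtain ⟨μ', rfl⟩ : ∃ μ', μ = μ' + 1 := ⟨μ - 1, by omega⟩
  rw [Nat.add_sub_cancel] at h5
  have h7 : (μ' + 1) * Fintype.card V ^ t = μ' * Fintype.card V ^ t + Fintype.card V ^ t := by ring
  omega

end Pool.Agent.Helper58.SU
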